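import Pool.Agent.TH703.HU.Stm

/-!
# Project HU, piece C4: concentration inequality in the square
-/

set_option autoImplicit false

open MeasureTheory Set Metric Filter Topology
open scoped ENNReal Real
open Pool.Agent.TH304.MI Pool.Agent.TH703.HU

namespace Pool.Agent.TH283.HU

/-! ### Sections -/

/-- vertical section -/
def vs (B : Set ℂ) (a : ℝ) : Set ℝ := {t | (⟨a, t⟩ : ℂ) ∈ B}

/-- horizontal section -/
def hs (B : Set ℂ) (b : ℝ) : Set ℝ := {t | (⟨t, b⟩ : ℂ) ∈ B}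

lemma meas_mk : Measurable (fun p : ℝ × ℝ => (⟨p.1, p.2⟩ : ℂ)) :=
  Complex.measurableEquivRealProd.symm.measurable

lemma vs_meas {B : Set ℂ} (hB : MeasurableSet B) (a : ℝ) : MeasurableSet (vs B a) :=
  (meas_mk.comp measurable_prodMk_left) hB

lemma hs_meas {B : Set ℂ} (hB : MeasurableSet B) (b : ℝ) : MeasurableSet (hs B b) :=
  (meas_mk.comp measurable_prodMk_right) hB

lemma vol_eq {B : Set ℂ} (hB : MeasurableSet B) :
    volume B = (volume : Measure (ℝ × ℝ)) {p : ℝ × ℝ | (⟨p.1, p.2⟩ : ℂ) ∈ B} := by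
  have h := (Complex.volume_preserving_equiv_real_prod.symm
    Complex.measurableEquivRealProd).measure_preimage hB.nullMeasurableSet
  rw [← h]; rfl

lemma vs_int {B : Set ℂ} (hB : MeasurableSet B) : volume B = ∫⁻ a, volume (vs B a) := by
  rw [vol_eq hB, Measure.volume_eq_prod]; exact Measure.prod_apply (meas_mk hB)

lemma hs_int {B : Set ℂ} (hB : MeasurableSet B) : volume B = ∫⁻ b, volume (hs B b) := by
  rw [vol_eq hB, Measure.volume_eq_prod]; exact Measure.prod_apply_symm (meas_mk hB)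

lemma vs_fm {B : Set ℂ} (hB : MeasurableSet B) : Measurable (fun a => volume (vs B a)) :=
  measurable_measure_prodMk_left (meas_mk hB)

lemma hs_fm {B : Set ℂ} (hB : MeasurableSet B) : Measurable (fun b => volume (hs B b)) :=
  measurable_measure_prodMk_right (meas_mk hB)

/-- the set of vertical lines meeting `B` -/
def VX (B : Set ℂ) : Set ℝ := {a | 0 < volume (vs B a)}

/-- the set of horizontal lines meeting `B` -/
def HX (B : Set ℂ) : Set ℝ := {b | 0 < volume (hs B b)}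

lemma VX_meas {B : Set ℂ} (hB : MeasurableSet B) : MeasurableSet (VX B) :=
  measurableSet_lt measurable_const (vs_fm hB)

lemma HX_meas {B : Set ℂ} (hB : MeasurableSet B) : MeasurableSet (HX B) :=
  measurableSet_lt measurable_const (hs_fm hB)

lemma prod_le {B : Set ℂ} (hB : MeasurableSet B) : volume B ≤ volume (VX B) * volume (HX B) := by
  have m1 : MeasurableSet {z : ℂ | z.re ∈ VX B} := Complex.measurable_re (VX_meas hB)
  have m2 : MeasurableSet {z : ℂ | z.im ∈ HX B} := Complex.measurable_im (HX_meas hB)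
  have e1 : volume (B \ {z : ℂ | z.re ∈ VX B}) = 0 := by
    rw [vs_int (hB.diff m1)]
    rw [lintegral_eq_zero_iff (vs_fm (hB.diff m1))]
    refine Eventually.of_forall fun a => ?_
    by_cases ha : a ∈ VX B
    · have : vs (B \ {z : ℂ | z.re ∈ VX B}) a = ∅ := by
        ext t; simp only [vs, mem_ofPred_eq, Set.mem_sdiff, ha, not_true_eq_false, and_false,
          mem_empty_iff_false]
      simp [this]
    · have h0 : volume (vs B a) = 0 := by
        by_contra h; exact ha (pos_iff_ne_zero.2 h)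
      exact measure_mono_null (fun t ht => ht.1) h0
  have e2 : volume (B \ {z : ℂ | z.im ∈ HX B}) = 0 := by
    rw [hs_int (hB.diff m2)]
    rw [lintegral_eq_zero_iff (hs_fm (hB.diff m2))]
    refine Eventually.of_forall fun a => ?_
    by_cases ha : a ∈ HX B
    · have : hs (B \ {z : ℂ | z.im ∈ HX B}) a = ∅ := by
        ext t; simp only [hs, mem_ofPred_eq, Set.mem_sdiff, ha, not_true_eq_false, and_false,
          mem_empty_iff_false]
      simp [this]
    · have h0 : volume (hs B a) = 0 := by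
        by_contra h; exact ha (pos_iff_ne_zero.2 h)
      exact measure_mono_null (fun t ht => ht.1) h0
  have hsub : B ⊆ ({z : ℂ | z.re ∈ VX B} ∩ {z : ℂ | z.im ∈ HX B}) ∪
      (B \ {z : ℂ | z.re ∈ VX B}) ∪ (B \ {z : ℂ | z.im ∈ HX B}) := by
    intro z hz
    by_cases h1 : z.re ∈ VX B
    · by_cases h2 : z.im ∈ HX B
      · exact Or.inl (Or.inl ⟨h1, h2⟩)
      · exact Or.inr ⟨hz, h2⟩
    · exact Or.inl (Or.inr ⟨hz, h1⟩)
  calc volume B ≤ volume ({z : ℂ | z.re ∈ VX B} ∩ {z : ℂ | z.im ∈ HX B}) + 0 + 0 := by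
        refine (measure_mono hsub).trans ((measure_union_le _ _).trans ?_)
        rw [e2]
        gcongr
        refine (measure_union_le _ _).trans ?_
        rw [e1]
    _ = volume (VX B) * volume (HX B) := by
        rw [add_zero, add_zero, vol_eq (m1.inter m2)]
        rw [← Measure.prod_prod, ← Measure.volume_eq_prod]
        rfl

lemma integ (f g : ℝ → ℝ≥0∞) {E : Set ℝ} (hE : MeasurableSet E) (c : ℝ≥0∞)
    (h : ∀ a, g a ≤ f a + E.indicator (fun _ => c) a) :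
    ∫⁻ a, g a ≤ (∫⁻ a, f a) + c * volume E := by
  calc ∫⁻ a, g a ≤ ∫⁻ a, (f a + E.indicator (fun _ => c) a) := lintegral_mono h
    _ = (∫⁻ a, f a) + ∫⁻ a, E.indicator (fun _ => c) a :=
        lintegral_add_right _ (measurable_const.indicator hE)
    _ = _ := by rw [lintegral_indicator_const hE]

lemma ind_int {E F : Set ℝ} (hE : MeasurableSet E) (hF : MeasurableSet F) (k c d : ℝ≥0∞) :
    ∫⁻ a, k * (E.indicator (fun _ => c) a + F.indicator (fun _ => d) a) =
      k * (c * volume E + d * volume F) := by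
  have h : Measurable (fun a => E.indicator (fun _ => c) a + F.indicator (fun _ => d) a) :=
    (measurable_const.indicator hE).add (measurable_const.indicator hF)
  rw [lintegral_const_mul _ h,
    lintegral_add_left (measurable_const.indicator hE), lintegral_indicator_const hE,
    lintegral_indicator_const hF]

/-- cut-off -/
lemma cutoff (w : ℂ → ℝ) (hw : Continuous w) (hw0 : ∀ x, 0 ≤ w x) {δ h : ℝ} (hδ1 : δ < 1)
    (H : ∀ x : ℂ, |x.re| ≤ h → |x.im| ≤ h → 1 - δ ≤ w x) :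
    ∃ u : ℂ → ℝ, Continuous u ∧ HasCompactSupport u ∧ tsupport u ⊆ {x | 0 < w x} ∧
      (∀ x, 0 ≤ u x) ∧ (∀ x, u x ≤ w x) ∧ ∀ x : ℂ, |x.re| ≤ h → |x.im| ≤ h → 1 - δ ≤ u x := by
  have hK : IsCompact {x : ℂ | |x.re| ≤ h ∧ |x.im| ≤ h} := by
    rw [Metric.isCompact_iff_isClosed_bounded]
    refine ⟨?_, ?_⟩
    · exact (isClosed_le (continuous_abs.comp Complex.continuous_re) continuous_const).inter
        (isClosed_le (continuous_abs.comp Complex.continuous_im) continuous_const)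
    · rw [isBounded_iff_forall_norm_le]
      exact ⟨h + h, fun x hx => (Complex.norm_le_abs_re_add_abs_im x).trans (add_le_add hx.1 hx.2)⟩
  have hO : IsOpen {x : ℂ | 0 < w x} := isOpen_lt continuous_const hw
  have hKO : {x : ℂ | |x.re| ≤ h ∧ |x.im| ≤ h} ⊆ {x : ℂ | 0 < w x} := fun x hx =>
    lt_of_lt_of_le (by linarith) (H x hx.1 hx.2)
  obtain ⟨L, hL, hKL, hLO⟩ := exists_compact_between hK hO hKO
  obtain ⟨f, hf1, hf0, hfc, hfI⟩ := exists_continuous_one_zero_of_isCompact hK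
    (isOpen_interior (s := L)).isClosed_compl (disjoint_compl_right_iff_subset.mpr hKL)
  have hsupp : tsupport f ⊆ L := by
    refine closure_minimal ?_ hL.isClosed
    intro x hx
    by_contra hxL
    exact hx (hf0 (fun hx' => hxL (interior_subset hx')))
  refine ⟨fun x => f x * min (w x) (1 - δ), f.continuous.mul (hw.min continuous_const),
    hfc.mul_right, ?_, ?_, ?_, ?_⟩
  · refine (tsupport_mul_subset_left).trans (hsupp.trans hLO)
  · intro x
    exact mul_nonneg (hfI x).1 (le_min (hw0 x) (by linarith))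
  · intro x
    calc f x * min (w x) (1 - δ) ≤ 1 * min (w x) (1 - δ) :=
          mul_le_mul_of_nonneg_right (hfI x).2 (le_min (hw0 x) (by linarith))
      _ ≤ w x := by rw [one_mul]; exact min_le_left _ _
  · intro x h1 h2
    have e : f x = 1 := hf1 ⟨h1, h2⟩
    show 1 - δ ≤ f x * min (w x) (1 - δ)
    rw [e, one_mul]
    exact le_min (H x h1 h2) le_rfl

/-! ### Lines -/

section
variable {A : Set ℂ} {h : ℝ}

/-- the square -/
def Qs (h : ℝ) : Set ℂ := {x | |x.re| < h ∧ |x.im| < h}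

/-- the window -/
def Rs : Set ℂ := {x | 2 / 5 < x.re ∧ |x.im| < 43 / 100}

lemma Qs_meas (h : ℝ) : MeasurableSet (Qs h) :=
  (measurableSet_lt (measurable_norm.comp Complex.measurable_re) measurable_const).inter
    (measurableSet_lt (measurable_norm.comp Complex.measurable_im) measurable_const)

lemma Rs_meas : MeasurableSet Rs :=
  (measurableSet_lt measurable_const Complex.measurable_re).inter
    (measurableSet_lt (measurable_norm.comp Complex.measurable_im) measurable_const)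

/-- exceptional lines -/
def EV (B : Set ℂ) : Set ℝ := {a | ENNReal.ofReal (6 / 100) ≤ volume (vs B a)}

def EH (B : Set ℂ) : Set ℝ := {a | ENNReal.ofReal (6 / 100) ≤ volume (hs B a)}

lemma EV_meas {B : Set ℂ} (hB : MeasurableSet B) : MeasurableSet (EV B) :=
  measurableSet_le measurable_const (vs_fm hB)

lemma EH_meas {B : Set ℂ} (hB : MeasurableSet B) : MeasurableSet (EH B) :=
  measurableSet_le measurable_const (hs_fm hB)

lemma EV_le {B : Set ℂ} (hB : MeasurableSet B) :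
    ENNReal.ofReal (6 / 100) * volume (EV B) ≤ volume B := by
  rw [vs_int hB]
  exact mul_meas_ge_le_lintegral (vs_fm hB) _

lemma EH_le {B : Set ℂ} (hB : MeasurableSet B) :
    ENNReal.ofReal (6 / 100) * volume (EH B) ≤ volume B := by
  rw [hs_int hB]
  exact mul_meas_ge_le_lintegral (hs_fm hB) _

/-- on a line which is not exceptional no segment of length `≥ 6/100` is full -/
lemma nonfull {S T : Set ℝ} {a b : ℝ} (hab : 6 / 100 ≤ b - a) (hT : ∀ t ∈ Ioo a b, t ∈ S → t ∈ T)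
    (h : volume T < ENNReal.ofReal (6 / 100)) : 0 < volume (Ioo a b \ S) := by
  rw [pos_iff_ne_zero]
  intro h0
  have h1 : volume (Ioo a b) ≤ volume T := by
    calc volume (Ioo a b) ≤ volume ((Ioo a b \ S) ∪ T) := by
          refine measure_mono fun t ht => ?_
          by_cases hS : t ∈ S
          · exact Or.inr (hT t ht hS)
          · exact Or.inl ⟨ht, hS⟩
      _ ≤ volume (Ioo a b \ S) + volume T := measure_union_le _ _
      _ = volume T := by rw [h0, zero_add]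
  rw [Real.volume_Ioo] at h1
  have h2 : ENNReal.ofReal (6 / 100) ≤ ENNReal.ofReal (b - a) := ENNReal.ofReal_le_ofReal hab
  exact absurd (h2.trans h1) (not_le.2 h)

lemma pos_or {B S T : Set ℝ} {p q : ℝ} (hsub : B ⊆ S ∪ T ∪ {p, q}) (h : 0 < volume B) :
    0 < volume S ∨ 0 < volume T := by
  by_contra hc
  push Not at hc
  have hS : volume S = 0 := le_antisymm hc.1 zero_le
  have hT : volume T = 0 := le_antisymm hc.2 zero_le
  have hf : volume ({p, q} : Set ℝ) = 0 := (Set.toFinite _).measure_zero _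
  have : volume B = 0 := measure_mono_null hsub (by
    rw [measure_union_null_iff, measure_union_null_iff]; exact ⟨⟨hS, hT⟩, hf⟩)
  exact h.ne' this

end

section lines
variable {A : Set ℂ} {h δ : ℝ} {u : ℂ → ℝ}

lemma cont_v (hu : Continuous u) (a : ℝ) : Continuous (fun t : ℝ => u ⟨a, t⟩) := by
  refine hu.comp ?_
  exact Complex.equivRealProdCLM.symm.continuous.comp (continuous_const.prodMk continuous_id)

lemma cont_h (hu : Continuous u) (b : ℝ) : Continuous (fun t : ℝ => u ⟨t, b⟩) := by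
  refine hu.comp ?_
  exact Complex.equivRealProdCLM.symm.continuous.comp (continuous_id.prodMk continuous_const)

lemma VX_B1 {a : ℝ} (ha : a ∈ VX (A ∩ Qs h ∩ Rs)) :
    2 / 5 < a ∧ |a| < h ∧ 0 < volume (vs A a ∩ Ioo (-(43 / 100)) (43 / 100)) := by
  have h0 : 0 < volume (vs (A ∩ Qs h ∩ Rs) a) := ha
  obtain ⟨t, ht⟩ := nonempty_of_measure_ne_zero h0.ne'
  refine ⟨ht.2.1, ht.1.2.1, lt_of_lt_of_le h0 (measure_mono fun s hs => ⟨hs.1.1, ?_⟩)⟩
  exact abs_lt.1 hs.2.2

lemma VX_B2 {a : ℝ} (ha : a ∈ VX ((A ∩ Qs h) \ Rs)) :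
    |a| < h ∧ 0 < volume (vs A a ∩ Ioo (-h) h) ∧
    (2 / 5 < a → 0 < volume (vs A a ∩ Ioo (-h) (-(43 / 100))) ∨
      0 < volume (vs A a ∩ Ioo (43 / 100) h)) := by
  have h0 : 0 < volume (vs ((A ∩ Qs h) \ Rs) a) := ha
  obtain ⟨t, ht⟩ := nonempty_of_measure_ne_zero h0.ne'
  refine ⟨ht.1.2.1, lt_of_lt_of_le h0 (measure_mono fun s hs => ⟨hs.1.1, abs_lt.1 hs.1.2.2⟩), ?_⟩
  intro h25
  refine pos_or (p := -(43 / 100)) (q := 43 / 100) ?_ h0
  intro s hs
  have hs2 := abs_lt.1 hs.1.2.2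
  simp only at hs2
  have h43 : ¬ |s| < 43 / 100 := fun hc => hs.2 ⟨h25, hc⟩
  rw [not_lt, le_abs] at h43
  rcases h43 with h4 | h4
  · rcases eq_or_lt_of_le h4 with h5 | h5
    · right; right; exact h5.symm
    · left; right; exact ⟨hs.1.1, h5, hs2.2⟩
  · have h4' : s ≤ -(43 / 100) := by linarith
    rcases eq_or_lt_of_le h4' with h5 | h5
    · right; left; exact h5
    · left; left; exact ⟨hs.1.1, hs2.1, h5⟩

lemma HX_B1 {b : ℝ} (hb : b ∈ HX (A ∩ Qs h ∩ Rs)) :
    |b| < 43 / 100 ∧ |b| < h ∧ 0 < volume (hs A b ∩ Ioo (2 / 5) h) := by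
  have h0 : 0 < volume (hs (A ∩ Qs h ∩ Rs) b) := hb
  obtain ⟨t, ht⟩ := nonempty_of_measure_ne_zero h0.ne'
  refine ⟨ht.2.2, ht.1.2.2, lt_of_lt_of_le h0 (measure_mono fun s hs => ⟨hs.1.1, hs.2.1, ?_⟩)⟩
  exact (abs_lt.1 hs.1.2.1).2

lemma HX_B2 {b : ℝ} (hb : b ∈ HX ((A ∩ Qs h) \ Rs)) :
    |b| < h ∧ 0 < volume (hs A b ∩ Ioo (-h) h) ∧
    (|b| < 43 / 100 → 0 < volume (hs A b ∩ Ioo (-h) (2 / 5))) := by
  have h0 : 0 < volume (hs ((A ∩ Qs h) \ Rs) b) := hb
  obtain ⟨t, ht⟩ := nonempty_of_measure_ne_zero h0.ne'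
  refine ⟨ht.1.2.2, lt_of_lt_of_le h0 (measure_mono fun s hs => ⟨hs.1.1, abs_lt.1 hs.1.2.1⟩), ?_⟩
  intro h43
  have := pos_or (S := hs A b ∩ Ioo (-h) (2 / 5)) (T := ∅) (p := 2 / 5) (q := 2 / 5)
    (B := hs ((A ∩ Qs h) \ Rs) b) ?_ h0
  · rcases this with h1 | h1
    · exact h1
    · simp at h1
  intro s hs
  have hs2 := abs_lt.1 hs.1.2.1
  simp only at hs2
  have h25 : ¬ 2 / 5 < s := fun hc => hs.2 ⟨hc, h43⟩
  rw [not_lt] at h25
  rcases eq_or_lt_of_le h25 with h5 | h5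
  · right; left; exact h5
  · left; left; exact ⟨hs.1.1, hs2.1, h5⟩

lemma nf_v {a p q : ℝ} (ha : |a| < h) (hp : -h ≤ p) (hq : q ≤ h) (hpq : 6 / 100 ≤ q - p)
    (hE : a ∉ EV (A ∩ Qs h)) : 0 < volume (Ioo p q \ vs A a) := by
  have hE' : volume (vs (A ∩ Qs h) a) < ENNReal.ofReal (6 / 100) := not_le.1 hE
  refine nonfull hpq (fun t ht htA => ?_) hE'
  exact ⟨htA, ha, abs_lt.2 ⟨by linarith [ht.1], by linarith [ht.2]⟩⟩

lemma nf_h {b p q : ℝ} (hb : |b| < h) (hp : -h ≤ p) (hq : q ≤ h) (hpq : 6 / 100 ≤ q - p)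
    (hE : b ∉ EH (A ∩ Qs h)) : 0 < volume (Ioo p q \ hs A b) := by
  have hE' : volume (hs (A ∩ Qs h) b) < ENNReal.ofReal (6 / 100) := not_le.1 hE
  refine nonfull hpq (fun t ht htA => ?_) hE'
  exact ⟨htA, abs_lt.2 ⟨by linarith [ht.1], by linarith [ht.2]⟩, hb⟩

variable (c3 : S_C3) (hA : MeasurableSet A) (hu : Continuous u) (hu0 : ∀ x, 0 ≤ u x)
  (hδ : 0 < δ) (hδ1 : δ < 1) (hh : 499 / 1000 ≤ h)
  (H : ∀ x : ℂ, |x.re| ≤ h → |x.im| ≤ h → 1 - δ ≤ u x)

include c3 hA hu hu0 hδ1 hh H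

lemma vert1 {a : ℝ} (hE : a ∉ EV (A ∩ Qs h)) :
    ENNReal.ofReal (1 - δ) * ((VX (A ∩ Qs h ∩ Rs)).indicator (fun _ => (1 : ℝ≥0∞)) a +
      (VX ((A ∩ Qs h) \ Rs)).indicator (fun _ => (1 : ℝ≥0∞)) a) ≤
      ev (fun t => u ⟨a, t⟩) {t | (⟨a, t⟩ : ℂ) ∈ A} := by
  obtain ⟨k1, k2, k3⟩ := c3 (fun t => u ⟨a, t⟩) (vs A a) (cont_v hu a) (fun t => hu0 _)
    (vs_meas hA a)
  have hk : 0 ≤ 1 - δ := by linarith
  have low : |a| < h → ∀ t : ℝ, -h < t → t < h → 1 - δ ≤ u ⟨a, t⟩ := fun ha t h1 h2 =>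
    H ⟨a, t⟩ ha.le (abs_le.2 ⟨h1.le, h2.le⟩)
  have e2 : ENNReal.ofReal (1 - δ) * (1 + 1) = ENNReal.ofReal ((1 - δ) + (1 - δ)) := by
    rw [ENNReal.ofReal_add hk hk]; ring
  by_cases h1 : a ∈ VX (A ∩ Qs h ∩ Rs)
  · obtain ⟨a25, ah, pM⟩ := VX_B1 h1
    by_cases h2 : a ∈ VX ((A ∩ Qs h) \ Rs)
    · rw [indicator_of_mem h1, indicator_of_mem h2, e2]
      obtain ⟨-, -, hO⟩ := VX_B2 h2
      rcases hO a25 with hO | hO
      · exact k2 (-h) (-(43 / 100)) (-(43 / 100)) (43 / 100) (1 - δ) (1 - δ) (by linarith) le_rfl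
          (by norm_num) hk hk (fun t ht => low ah t ht.1 (by linarith [ht.2]))
          (fun t ht => low ah t (by linarith [ht.1]) (by linarith [ht.2])) hO
          (nf_v ah le_rfl (by linarith) (by linarith) hE) pM
          (nf_v ah (by linarith) (by linarith) (by linarith) hE)
      · exact k2 (-(43 / 100)) (43 / 100) (43 / 100) h (1 - δ) (1 - δ) (by norm_num) le_rfl
          (by linarith) hk hk (fun t ht => low ah t (by linarith [ht.1]) (by linarith [ht.2]))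
          (fun t ht => low ah t (by linarith [ht.1]) (by linarith [ht.2])) pM
          (nf_v ah (by linarith) (by linarith) (by linarith) hE) hO
          (nf_v ah (by linarith) (by linarith) (by linarith) hE)
    · rw [indicator_of_mem h1, indicator_of_notMem h2, add_zero, mul_one]
      exact k1 (-(43 / 100)) (43 / 100) (1 - δ) (by norm_num) hk
        (fun t ht => low ah t (by linarith [ht.1]) (by linarith [ht.2])) pM
        (nf_v ah (by linarith) (by linarith) (by linarith) hE)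
  · by_cases h2 : a ∈ VX ((A ∩ Qs h) \ Rs)
    · rw [indicator_of_notMem h1, indicator_of_mem h2, zero_add, mul_one]
      obtain ⟨ah, pO, -⟩ := VX_B2 h2
      exact k1 (-h) h (1 - δ) (by linarith) hk
        (fun t ht => low ah t ht.1 ht.2) pO
        (nf_v ah le_rfl le_rfl (by linarith) hE)
    · rw [indicator_of_notMem h1, indicator_of_notMem h2, add_zero, mul_zero]
      exact zero_le

lemma vert2 {a : ℝ} (hE : a ∉ EV (A ∩ Qs h)) :
    ENNReal.ofReal (1 - δ) * ((VX (A ∩ Qs h ∩ Rs)).indicator (fun _ => (2 : ℝ≥0∞)) a +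
      (∅ : Set ℝ).indicator (fun _ => (0 : ℝ≥0∞)) a) ≤
      ev (fun t => u ⟨a, t⟩) {t | (⟨a, t⟩ : ℂ) ∈ A} := by
  obtain ⟨k1, k2, k3⟩ := c3 (fun t => u ⟨a, t⟩) (vs A a) (cont_v hu a) (fun t => hu0 _)
    (vs_meas hA a)
  have hk : 0 ≤ 1 - δ := by linarith
  have low : |a| < h → ∀ t : ℝ, -h < t → t < h → 1 - δ ≤ u ⟨a, t⟩ := fun ha t h1 h2 =>
    H ⟨a, t⟩ ha.le (abs_le.2 ⟨h1.le, h2.le⟩)
  have e2 : ENNReal.ofReal (1 - δ) * 2 = ENNReal.ofReal (2 * (1 - δ)) := by
    rw [ENNReal.ofReal_mul (by norm_num), ENNReal.ofReal_ofNat, mul_comm]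
  rw [indicator_empty, add_zero]
  by_cases h1 : a ∈ VX (A ∩ Qs h ∩ Rs)
  · obtain ⟨a25, ah, pM⟩ := VX_B1 h1
    rw [indicator_of_mem h1, e2]
    exact k3 (-h) (-(43 / 100)) (43 / 100) h (1 - δ) (by linarith) (by norm_num)
      (by linarith) hk (fun t ht => low ah t ht.1 ht.2)
      (nf_v ah le_rfl (by linarith) (by linarith) hE) pM
      (nf_v ah (by linarith) (by linarith) (by linarith) hE)
  · rw [indicator_of_notMem h1, mul_zero]
    exact zero_le

lemma hor1 {b : ℝ} (hE : b ∉ EH (A ∩ Qs h)) :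
    ENNReal.ofReal (1 - δ) * ((HX (A ∩ Qs h ∩ Rs)).indicator (fun _ => (1 : ℝ≥0∞)) b +
      (HX ((A ∩ Qs h) \ Rs)).indicator (fun _ => (1 : ℝ≥0∞)) b) ≤
      ev (fun t => u ⟨t, b⟩) {t | (⟨t, b⟩ : ℂ) ∈ A} := by
  obtain ⟨k1, k2, k3⟩ := c3 (fun t => u ⟨t, b⟩) (hs A b) (cont_h hu b) (fun t => hu0 _)
    (hs_meas hA b)
  have hk : 0 ≤ 1 - δ := by linarith
  have low : |b| < h → ∀ t : ℝ, -h < t → t < h → 1 - δ ≤ u ⟨t, b⟩ := fun hb t h1 h2 =>
    H ⟨t, b⟩ (abs_le.2 ⟨h1.le, h2.le⟩) hb.le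
  have e2 : ENNReal.ofReal (1 - δ) * (1 + 1) = ENNReal.ofReal ((1 - δ) + (1 - δ)) := by
    rw [ENNReal.ofReal_add hk hk]; ring
  by_cases h1 : b ∈ HX (A ∩ Qs h ∩ Rs)
  · obtain ⟨b43, bh, pM⟩ := HX_B1 h1
    by_cases h2 : b ∈ HX ((A ∩ Qs h) \ Rs)
    · rw [indicator_of_mem h1, indicator_of_mem h2, e2]
      obtain ⟨-, -, hO⟩ := HX_B2 h2
      exact k2 (-h) (2 / 5) (2 / 5) h (1 - δ) (1 - δ) (by linarith) le_rfl
          (by linarith) hk hk (fun t ht => low bh t ht.1 (by linarith [ht.2]))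
          (fun t ht => low bh t (by linarith [ht.1]) (by linarith [ht.2])) (hO b43)
          (nf_h bh le_rfl (by linarith) (by linarith) hE) pM
          (nf_h bh (by linarith) (by linarith) (by linarith) hE)
    · rw [indicator_of_mem h1, indicator_of_notMem h2, add_zero, mul_one]
      exact k1 (2 / 5) h (1 - δ) (by linarith) hk
        (fun t ht => low bh t (by linarith [ht.1]) (by linarith [ht.2])) pM
        (nf_h bh (by linarith) (by linarith) (by linarith) hE)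
  · by_cases h2 : b ∈ HX ((A ∩ Qs h) \ Rs)
    · rw [indicator_of_notMem h1, indicator_of_mem h2, zero_add, mul_one]
      obtain ⟨bh, pO, -⟩ := HX_B2 h2
      exact k1 (-h) h (1 - δ) (by linarith) hk
        (fun t ht => low bh t ht.1 ht.2) pO
        (nf_h bh le_rfl le_rfl (by linarith) hE)
    · rw [indicator_of_notMem h1, indicator_of_notMem h2, add_zero, mul_zero]
      exact zero_le

lemma hor2 {b : ℝ} (hE : b ∉ EH (A ∩ Qs h)) :
    ENNReal.ofReal (1 - δ) * ((HX (A ∩ Qs h ∩ Rs)).indicator (fun _ => (1 : ℝ≥0∞)) b +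
      (∅ : Set ℝ).indicator (fun _ => (0 : ℝ≥0∞)) b) ≤
      ev (fun t => u ⟨t, b⟩) {t | (⟨t, b⟩ : ℂ) ∈ A} := by
  refine le_trans ?_ (hor1 c3 hA hu hu0 hδ1 hh H hE)
  rw [indicator_empty]
  gcongr
  exact zero_le

end lines

section final

/-- abstract numerical core -/
lemma core {w : ℂ → ℝ} {A : Set ℂ} {P δ h : ℝ} {u : ℂ → ℝ} (c2 : S_C2)
    (hw : Continuous w) (hw0 : ∀ x, 0 ≤ w x) (hA : MeasurableSet A) (_hP : 0 ≤ P) (hPW : PW w A P)
    (hu : Continuous u) (huc : HasCompactSupport u) (hus : tsupport u ⊆ {x | 0 < w x})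
    (hu0 : ∀ x, 0 ≤ u x) (huw : ∀ x, u x ≤ w x) (hδ : 0 < δ) (_hδ1 : δ < 1)
    {X1 X2 Y1 Y2 : Set ℝ} (mX1 : MeasurableSet X1) (mX2 : MeasurableSet X2)
    (mY1 : MeasurableSet Y1) (mY2 : MeasurableSet Y2) {c1 c2' d1 d2 : ℝ≥0∞}
    (hc : c1 + c2' ≤ 2) (hd : d1 + d2 ≤ 2)
    (hv : ∀ a, a ∉ EV (A ∩ Qs h) → ENNReal.ofReal (1 - δ) * (X1.indicator (fun _ => c1) a +
      X2.indicator (fun _ => c2') a) ≤ ev (fun t => u ⟨a, t⟩) {t | (⟨a, t⟩ : ℂ) ∈ A})
    (hh : ∀ b, b ∉ EH (A ∩ Qs h) → ENNReal.ofReal (1 - δ) * (Y1.indicator (fun _ => d1) b +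
      Y2.indicator (fun _ => d2) b) ≤ ev (fun t => u ⟨t, b⟩) {t | (⟨t, b⟩ : ℂ) ∈ A}) :
    ENNReal.ofReal (1 - δ) * (c1 * volume X1 + c2' * volume X2) +
      ENNReal.ofReal (1 - δ) * (d1 * volume Y1 + d2 * volume Y2) ≤
      ENNReal.ofReal (√2 * P) + ENNReal.ofReal (200 / 3) * volume (A ∩ Qs h) := by
  have mQ : MeasurableSet (A ∩ Qs h) := hA.inter (Qs_meas h)
  have key := c2 w u A P hw hw0 hu huc hus hu0 huw hA hPW
  have bnd : ∀ (x y : ℝ≥0∞) (c d : ℝ≥0∞) (X Y : Set ℝ) (a : ℝ), c + d ≤ 2 →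
      ENNReal.ofReal (1 - δ) * (X.indicator (fun _ => c) a + Y.indicator (fun _ => d) a) ≤ 2 := by
    intro _ _ c d X Y a hcd
    calc ENNReal.ofReal (1 - δ) * (X.indicator (fun _ => c) a + Y.indicator (fun _ => d) a) ≤
        1 * (c + d) := by
          gcongr
          · exact ENNReal.ofReal_le_one.2 (by linarith)
          · exact indicator_le_self' (fun _ _ => zero_le) a
          · exact indicator_le_self' (fun _ _ => zero_le) a
      _ ≤ 2 := by rw [one_mul]; exact hcd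
  have iv := integ (fun a => ev (fun t => u ⟨a, t⟩) {t | (⟨a, t⟩ : ℂ) ∈ A})
    (fun a => ENNReal.ofReal (1 - δ) * (X1.indicator (fun _ => c1) a +
      X2.indicator (fun _ => c2') a)) (EV_meas mQ) 2 (by
        intro a
        by_cases ha : a ∈ EV (A ∩ Qs h)
        · rw [indicator_of_mem ha]
          exact (bnd 0 0 _ _ _ _ a hc).trans (le_add_left le_rfl)
        · rw [indicator_of_notMem ha, add_zero]
          exact hv a ha)
  have ih := integ (fun a => ev (fun t => u ⟨t, a⟩) {t | (⟨t, a⟩ : ℂ) ∈ A})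
    (fun a => ENNReal.ofReal (1 - δ) * (Y1.indicator (fun _ => d1) a +
      Y2.indicator (fun _ => d2) a)) (EH_meas mQ) 2 (by
        intro a
        by_cases ha : a ∈ EH (A ∩ Qs h)
        · rw [indicator_of_mem ha]
          exact (bnd 0 0 _ _ _ _ a hd).trans (le_add_left le_rfl)
        · rw [indicator_of_notMem ha, add_zero]
          exact hh a ha)
  rw [ind_int mX1 mX2] at iv
  rw [ind_int mY1 mY2] at ih
  have e6 : (2 : ℝ≥0∞) = ENNReal.ofReal (100 / 3) * ENNReal.ofReal (6 / 100) := by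
    rw [← ENNReal.ofReal_mul (by norm_num)]; norm_num
  have hEV : 2 * volume (EV (A ∩ Qs h)) ≤ ENNReal.ofReal (100 / 3) * volume (A ∩ Qs h) := by
    rw [e6, mul_assoc]; gcongr; exact EV_le mQ
  have hEH : 2 * volume (EH (A ∩ Qs h)) ≤ ENNReal.ofReal (100 / 3) * volume (A ∩ Qs h) := by
    rw [e6, mul_assoc]; gcongr; exact EH_le mQ
  have e7 : ENNReal.ofReal (200 / 3) * volume (A ∩ Qs h) =
      ENNReal.ofReal (100 / 3) * volume (A ∩ Qs h) + ENNReal.ofReal (100 / 3) * volume (A ∩ Qs h) := by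
    rw [← add_mul, ← ENNReal.ofReal_add (by norm_num) (by norm_num)]; norm_num
  rw [e7]
  refine (add_le_add iv ih).trans ?_
  calc _ ≤ ((∫⁻ a : ℝ, ev (fun t => u ⟨a, t⟩) {t | (⟨a, t⟩ : ℂ) ∈ A}) +
          ENNReal.ofReal (100 / 3) * volume (A ∩ Qs h)) +
        ((∫⁻ b : ℝ, ev (fun t => u ⟨t, b⟩) {t | (⟨t, b⟩ : ℂ) ∈ A}) +
          ENNReal.ofReal (100 / 3) * volume (A ∩ Qs h)) := by gcongr
    _ = ((∫⁻ b : ℝ, ev (fun t => u ⟨t, b⟩) {t | (⟨t, b⟩ : ℂ) ∈ A}) +
        (∫⁻ a : ℝ, ev (fun t => u ⟨a, t⟩) {t | (⟨a, t⟩ : ℂ) ∈ A})) +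
        (ENNReal.ofReal (100 / 3) * volume (A ∩ Qs h) +
          ENNReal.ofReal (100 / 3) * volume (A ∩ Qs h)) := by ring
    _ ≤ _ := by gcongr

lemma sqrt_prod {B : Set ℂ} (hB : MeasurableSet B) (hV : volume (VX B) ≠ ⊤)
    (hH : volume (HX B) ≠ ⊤) :
    volume.real B ≤ volume.real (VX B) * volume.real (HX B) := by
  have := prod_le hB
  have h2 := ENNReal.toReal_mono (ENNReal.mul_ne_top hV hH) this
  rwa [ENNReal.toReal_mul] at h2

lemma VX_top {B : Set ℂ} {h : ℝ} (hB : B ⊆ Qs h) : volume (VX B) ≠ ⊤ := by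
  have : VX B ⊆ Ioo (-h) h := by
    intro a ha
    have h0 : 0 < volume (vs B a) := ha
    obtain ⟨t, ht⟩ := nonempty_of_measure_ne_zero h0.ne'
    exact abs_lt.1 (hB ht).1
  exact ne_top_of_le_ne_top (by simp [Real.volume_Ioo]) (measure_mono this)

lemma HX_top {B : Set ℂ} {h : ℝ} (hB : B ⊆ Qs h) : volume (HX B) ≠ ⊤ := by
  have : HX B ⊆ Ioo (-h) h := by
    intro a ha
    have h0 : 0 < volume (hs B a) := ha
    obtain ⟨t, ht⟩ := nonempty_of_measure_ne_zero h0.ne'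
    exact abs_lt.1 (hB ht).2
  exact ne_top_of_le_ne_top (by simp [Real.volume_Ioo]) (measure_mono this)

lemma Qs_top (h : ℝ) : volume (Qs h) ≠ ⊤ := by
  refine (lt_of_le_of_lt (measure_mono ?_)
    (measure_ball_lt_top (μ := (volume : Measure ℂ)) (x := 0) (r := h + h + 1))).ne
  intro x hx
  rw [mem_ball_zero_iff]
  have := Complex.norm_le_abs_re_add_abs_im x
  have h1 := hx.1
  have h2 := hx.2
  linarith

/-- **C4.** -/
theorem c4 (c2 : S_C2) (c3 : S_C3) : S_C4 := by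
  intro w A P δ hw hw0 hA hδ hδ3 hP hwq hPW Q R hQ hR
  have hδ1 : δ < 1 := by linarith
  set h : ℝ := 1 / 2 - δ with hh
  have hh1 : 499 / 1000 ≤ h := by rw [hh]; linarith
  obtain ⟨u, hu, huc, hus, hu0, huw, H⟩ := cutoff w hw hw0 hδ1 hwq
  have hQ' : Q = Qs h := hQ
  have hR' : R = Rs := hR
  subst hQ' hR'
  set B1 := A ∩ Qs h ∩ Rs with hB1
  set B2 := (A ∩ Qs h) \ Rs with hB2
  have mB1 : MeasurableSet B1 := (hA.inter (Qs_meas h)).inter Rs_meas
  have mB2 : MeasurableSet B2 := (hA.inter (Qs_meas h)).diff Rs_meas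
  have s1 : B1 ⊆ Qs h := fun x hx => hx.1.2
  have s2 : B2 ⊆ Qs h := fun x hx => hx.1.2
  have Vt : volume (A ∩ Qs h) ≠ ⊤ :=
    ne_top_of_le_ne_top (Qs_top h) (measure_mono inter_subset_right)
  have r2 : (0 : ℝ) < √2 := by positivity
  have r22 : √2 * √2 = (2 : ℝ) := Real.mul_self_sqrt (by norm_num)
  have r2' : √2 ≥ (1 : ℝ) := by
    rw [ge_iff_le, Real.one_le_sqrt]; norm_num
  have V0 : 0 ≤ volume.real (A ∩ Qs h) := measureReal_nonneg
  -- first inequality
  have I1 := core (c1 := 1) (c2' := 1) (d1 := 1) (d2 := 1) c2 hw hw0 hA hP hPW hu huc hus hu0 huw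
    hδ hδ1 (VX_meas mB1) (VX_meas mB2) (HX_meas mB1) (HX_meas mB2) (by norm_num) (by norm_num)
    (fun a ha => vert1 c3 hA hu hu0 hδ1 hh1 H ha) (fun a ha => hor1 c3 hA hu hu0 hδ1 hh1 H ha)
  have I2 := core (c1 := 2) (c2' := 0) (d1 := 1) (d2 := 0) c2 hw hw0 hA hP hPW hu huc hus hu0 huw
    hδ hδ1 (VX_meas mB1) MeasurableSet.empty (HX_meas mB1) MeasurableSet.empty (by norm_num)
    (by norm_num)
    (fun a ha => vert2 c3 hA hu hu0 hδ1 hh1 H ha) (fun a ha => hor2 c3 hA hu hu0 hδ1 hh1 H ha)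
  -- pass to real numbers
  have tV1 := VX_top s1
  have tV2 := VX_top s2
  have tH1 := HX_top s1
  have tH2 := HX_top s2
  have toR : ∀ S : Set ℝ, volume S ≠ ⊤ → volume S = ENNReal.ofReal (volume.real S) :=
    fun S hS => (ENNReal.ofReal_toReal hS).symm
  have toC : volume (A ∩ Qs h) = ENNReal.ofReal (volume.real (A ∩ Qs h)) :=
    (ENNReal.ofReal_toReal Vt).symm
  have x1 : 0 ≤ volume.real (VX B1) := measureReal_nonneg
  have x2 : 0 ≤ volume.real (VX B2) := measureReal_nonneg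
  have y1 : 0 ≤ volume.real (HX B1) := measureReal_nonneg
  have y2 : 0 ≤ volume.real (HX B2) := measureReal_nonneg
  have hk : 0 ≤ 1 - δ := by linarith
  have J1 : (1 - δ) * (volume.real (VX B1) + volume.real (VX B2)) +
      (1 - δ) * (volume.real (HX B1) + volume.real (HX B2)) ≤
      √2 * P + 200 / 3 * volume.real (A ∩ Qs h) := by
    rw [one_mul, one_mul, one_mul, one_mul, toR _ tV1, toR _ tV2, toR _ tH1, toR _ tH2, toC,
      ← ENNReal.ofReal_add x1 x2, ← ENNReal.ofReal_add y1 y2, ← ENNReal.ofReal_mul hk,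
      ← ENNReal.ofReal_mul hk, ← ENNReal.ofReal_mul (by norm_num),
      ← ENNReal.ofReal_add (by positivity) (by positivity),
      ← ENNReal.ofReal_add (by positivity) (by positivity)] at I1
    exact (ENNReal.ofReal_le_ofReal_iff (by positivity)).1 I1
  have J2 : (1 - δ) * (2 * volume.real (VX B1)) + (1 - δ) * volume.real (HX B1) ≤
      √2 * P + 200 / 3 * volume.real (A ∩ Qs h) := by
    have two : (2 : ℝ≥0∞) = ENNReal.ofReal 2 := by norm_num
    rw [zero_mul, add_zero, add_zero, one_mul, toR _ tV1, toR _ tH1, toC, two,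
      ← ENNReal.ofReal_mul (by norm_num), ← ENNReal.ofReal_mul hk,
      ← ENNReal.ofReal_mul hk, ← ENNReal.ofReal_mul (by norm_num),
      ← ENNReal.ofReal_add (by positivity) (by positivity),
      ← ENNReal.ofReal_add (by positivity) (by positivity)] at I2
    exact (ENNReal.ofReal_le_ofReal_iff (by positivity)).1 I2
  have am : ∀ x y z : ℝ, 0 ≤ x → 0 ≤ y → z ≤ x * y → 2 * √z ≤ x + y := by
    intro x y z hx hy hz
    have h1 : √z ≤ √(x * y) := Real.sqrt_le_sqrt hz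
    have h2 : √(x * y) = √x * √y := Real.sqrt_mul hx y
    nlinarith [sq_nonneg (√x - √y), Real.sq_sqrt hx, Real.sq_sqrt hy]
  have p1 := sqrt_prod mB1 tV1 tH1
  have p2 := sqrt_prod mB2 tV2 tH2
  constructor
  · have a1 := am _ _ _ x1 y1 p1
    have a2 := am _ _ _ x2 y2 p2
    have h3 : (1 - δ) * (2 * √(volume.real B1) + 2 * √(volume.real B2)) ≤
        √2 * P + 200 / 3 * volume.real (A ∩ Qs h) := by
      refine le_trans ?_ J1
      rw [← mul_add (1 - δ)]
      exact mul_le_mul_of_nonneg_left (by linarith) hk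
    have h4 : √2 * (√2 * (1 - δ) * (√(volume.real B1) + √(volume.real B2))) ≤
        √2 * (P + 200 * volume.real (A ∩ Qs h)) := by
      calc √2 * (√2 * (1 - δ) * (√(volume.real B1) + √(volume.real B2))) =
          (√2 * √2) * (1 - δ) * (√(volume.real B1) + √(volume.real B2)) := by ring
        _ = (1 - δ) * (2 * √(volume.real B1) + 2 * √(volume.real B2)) := by rw [r22]; ring
        _ ≤ √2 * P + 200 / 3 * volume.real (A ∩ Qs h) := h3
        _ ≤ √2 * P + √2 * (200 * volume.real (A ∩ Qs h)) := by nlinarith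
        _ = _ := by ring
    exact le_of_mul_le_mul_left h4 r2
  · have p1' : 2 * volume.real B1 ≤ (2 * volume.real (VX B1)) * volume.real (HX B1) := by
      linarith
    have a1 := am _ _ _ (by positivity) y1 p1'
    rw [Real.sqrt_mul (by norm_num)] at a1
    have h3 : (1 - δ) * (2 * (√2 * √(volume.real B1))) ≤
        √2 * P + 200 / 3 * volume.real (A ∩ Qs h) := by
      refine le_trans ?_ J2
      rw [← mul_add]
      exact mul_le_mul_of_nonneg_left a1 hk
    have h4 : √2 * (2 * (1 - δ) * √(volume.real B1)) ≤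
        √2 * (P + 200 * volume.real (A ∩ Qs h)) := by
      calc √2 * (2 * (1 - δ) * √(volume.real B1)) =
          (1 - δ) * (2 * (√2 * √(volume.real B1))) := by ring
        _ ≤ √2 * P + 200 / 3 * volume.real (A ∩ Qs h) := h3
        _ ≤ √2 * P + √2 * (200 * volume.real (A ∩ Qs h)) := by nlinarith
        _ = _ := by ring
    exact le_of_mul_le_mul_left h4 r2

end final

end Pool.Agent.TH283.HU

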